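import Pool.Agent.Helper57.QZ.Stmts

set_option autoImplicit false

namespace Pool.Agent.Helper82.QZ

open MeasureTheory Set Filter Topology Pool.Agent.Helper57.QZ

theorem intg {f : ℝ → ℝ} (hf : Continuous f) (C : ℝ) (hC : ∀ φ, |f φ| ≤ C) :
    Integrable f circ :=
  Integrable.of_bound hf.aestronglyMeasurable C (Filter.Eventually.of_forall fun φ => by
    rw [Real.norm_eq_abs]; exact hC φ)

theorem exp_bd (x φ : ℝ) : Real.exp (x * Real.cos φ) ≤ Real.exp |x| := by
  apply Real.exp_le_exp.2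
  calc x * Real.cos φ ≤ |x * Real.cos φ| := le_abs_self _
    _ = |x| * |Real.cos φ| := abs_mul _ _
    _ ≤ |x| * 1 := mul_le_mul_of_nonneg_left (Real.abs_cos_le_one φ) (abs_nonneg x)
    _ = |x| := mul_one _

theorem int0 (x : ℝ) : Integrable (fun φ => Real.exp (x * Real.cos φ)) circ :=
  intg (by fun_prop) (Real.exp |x|) fun φ => by
    rw [abs_of_pos (Real.exp_pos _)]; exact exp_bd x φ

theorem int1 (x : ℝ) : Integrable (fun φ => Real.cos φ * Real.exp (x * Real.cos φ)) circ :=
  intg (by fun_prop) (Real.exp |x|) fun φ => by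
    rw [abs_mul, abs_of_pos (Real.exp_pos (x * Real.cos φ))]
    calc |Real.cos φ| * Real.exp (x * Real.cos φ) ≤ 1 * Real.exp |x| :=
          mul_le_mul (Real.abs_cos_le_one φ) (exp_bd x φ) (Real.exp_pos _).le zero_le_one
      _ = Real.exp |x| := one_mul _

theorem int2 (x : ℝ) : Integrable (fun φ => Real.cos φ ^ 2 * Real.exp (x * Real.cos φ)) circ :=
  intg (by fun_prop) (Real.exp |x|) fun φ => by
    rw [abs_mul, abs_of_pos (Real.exp_pos (x * Real.cos φ)), abs_of_nonneg (sq_nonneg _)]
    calc Real.cos φ ^ 2 * Real.exp (x * Real.cos φ) ≤ 1 * Real.exp |x| :=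
          mul_le_mul (Real.cos_sq_le_one φ) (exp_bd x φ) (Real.exp_pos _).le zero_le_one
      _ = Real.exp |x| := one_mul _

theorem I0_pos (x : ℝ) : 0 < I0 x := by
  unfold I0
  exact integral_exp_pos (int0 x)

theorem rr_le_one (x : ℝ) : rr x ≤ 1 := by
  unfold rr
  rw [div_le_one (I0_pos x)]
  unfold I0
  refine integral_mono (int1 x) (int0 x) fun φ => ?_
  have h1 := Real.cos_le_one φ
  have h2 := Real.exp_pos (x * Real.cos φ)
  show Real.cos φ * Real.exp (x * Real.cos φ) ≤ Real.exp (x * Real.cos φ)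
  nlinarith

theorem vv_nonneg (x : ℝ) : 0 ≤ vv x := by
  have hp := I0_pos x
  have h : 0 ≤ ∫ φ, (Real.cos φ - rr x) ^ 2 * Real.exp (x * Real.cos φ) ∂circ :=
    integral_nonneg fun φ => mul_nonneg (sq_nonneg _) (Real.exp_pos _).le
  have e : ∫ φ, (Real.cos φ - rr x) ^ 2 * Real.exp (x * Real.cos φ) ∂circ =
      (∫ φ, Real.cos φ ^ 2 * Real.exp (x * Real.cos φ) ∂circ)
        - 2 * rr x * (∫ φ, Real.cos φ * Real.exp (x * Real.cos φ) ∂circ)
        + rr x ^ 2 * ∫ φ, Real.exp (x * Real.cos φ) ∂circ := by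
    have s1 : Integrable (fun φ => Real.cos φ ^ 2 * Real.exp (x * Real.cos φ)
        - 2 * rr x * (Real.cos φ * Real.exp (x * Real.cos φ))) circ :=
      (int2 x).sub ((int1 x).const_mul _)
    have s2 : Integrable (fun φ => rr x ^ 2 * Real.exp (x * Real.cos φ)) circ :=
      (int0 x).const_mul _
    have c1 : ∫ φ, (Real.cos φ - rr x) ^ 2 * Real.exp (x * Real.cos φ) ∂circ =
        ∫ φ, ((Real.cos φ ^ 2 * Real.exp (x * Real.cos φ)
          - 2 * rr x * (Real.cos φ * Real.exp (x * Real.cos φ)))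
          + rr x ^ 2 * Real.exp (x * Real.cos φ)) ∂circ := by
      refine integral_congr_ae (Filter.Eventually.of_forall fun φ => ?_)
      show (Real.cos φ - rr x) ^ 2 * Real.exp (x * Real.cos φ) =
        Real.cos φ ^ 2 * Real.exp (x * Real.cos φ)
          - 2 * rr x * (Real.cos φ * Real.exp (x * Real.cos φ))
          + rr x ^ 2 * Real.exp (x * Real.cos φ)
      ring
    rw [c1, integral_add s1 s2, integral_sub (int2 x) ((int1 x).const_mul _),
      integral_const_mul, integral_const_mul]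
  have e1 : (∫ φ, Real.cos φ * Real.exp (x * Real.cos φ) ∂circ) = rr x * I0 x := by
    unfold rr
    rw [div_mul_cancel₀ _ hp.ne']
  have e0 : (∫ φ, Real.exp (x * Real.cos φ) ∂circ) = I0 x := rfl
  rw [e, e1, e0] at h
  have e2 : vv x * I0 x = (∫ φ, Real.cos φ ^ 2 * Real.exp (x * Real.cos φ) ∂circ)
      - rr x ^ 2 * I0 x := by
    unfold vv
    rw [sub_mul, div_mul_cancel₀ _ hp.ne']
  have e3 : 0 ≤ vv x * I0 x := by
    rw [e2]
    nlinarith
  exact nonneg_of_mul_nonneg_left e3 hp

theorem vv_le_one (x : ℝ) : vv x ≤ 1 := by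
  have hp := I0_pos x
  have h : (∫ φ, Real.cos φ ^ 2 * Real.exp (x * Real.cos φ) ∂circ) / I0 x ≤ 1 := by
    rw [div_le_one hp]
    unfold I0
    refine integral_mono (int2 x) (int0 x) fun φ => ?_
    have h1 := Real.cos_sq_le_one φ
    have h2 := Real.exp_pos (x * Real.cos φ)
    show Real.cos φ ^ 2 * Real.exp (x * Real.cos φ) ≤ Real.exp (x * Real.cos φ)
    nlinarith
  unfold vv
  nlinarith [sq_nonneg (rr x)]

theorem rr_zero : rr 0 = 0 := by
  have h : (∫ φ, Real.cos φ * Real.exp (0 * Real.cos φ) ∂circ) = 0 := by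
    have e : (fun φ : ℝ => Real.cos φ * Real.exp (0 * Real.cos φ)) = Real.cos := by
      funext φ; simp
    rw [e]
    unfold circ
    rw [integral_smul_measure, ← intervalIntegral.integral_of_le (by positivity), integral_cos]
    simp
  unfold rr
  rw [h, zero_div]

theorem ell_zero : ell 0 = 0 := by
  unfold ell I0
  simp

theorem vm3_of (h1 : ST_VM1) : ST_VM3 := by
  have hd : ∀ x, HasDerivAt ell (rr x) x := fun x => (h1 x).1
  have hr : ∀ x, HasDerivAt rr (vv x) x := fun x => (h1 x).2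
  have hmr : Monotone rr := monotone_of_hasDerivAt_nonneg hr fun x => vv_nonneg x
  have har : Antitone (fun x => rr x - x) := by
    refine antitone_of_hasDerivAt_nonpos (f' := fun x => vv x - 1)
      (fun x => (hr x).sub (hasDerivAt_id x)) fun x => ?_
    have := vv_le_one x
    show vv x - 1 ≤ 0
    linarith
  have hae : Antitone (fun x => ell x - x) := by
    refine antitone_of_hasDerivAt_nonpos (f' := fun x => rr x - 1)
      (fun x => (hd x).sub (hasDerivAt_id x)) fun x => ?_
    have := rr_le_one x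
    show rr x - 1 ≤ 0
    linarith
  have hr0 : ∀ x, 0 ≤ x → 0 ≤ rr x := fun x hx => by
    have := hmr hx
    rwa [rr_zero] at this
  have hme : MonotoneOn ell (Ici 0) := by
    refine monotoneOn_of_deriv_nonneg (convex_Ici 0) (fun x _ => (hd x).continuousAt.continuousWithinAt)
      (fun x _ => (hd x).differentiableAt.differentiableWithinAt) fun x hx => ?_
    rw [interior_Ici] at hx
    rw [(hd x).deriv]
    exact hr0 x (le_of_lt hx)
  have hg : ∀ x, HasDerivAt (fun x => x * rr x - ell x) (x * vv x) x := fun x => by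
    have := ((hasDerivAt_id x).mul (hr x)).sub (hd x)
    refine this.congr_deriv ?_
    simp
  have hmg : MonotoneOn (fun x => x * rr x - ell x) (Ici 0) := by
    refine monotoneOn_of_deriv_nonneg (convex_Ici 0) (fun x _ => (hg x).continuousAt.continuousWithinAt)
      (fun x _ => (hg x).differentiableAt.differentiableWithinAt) fun x hx => ?_
    rw [interior_Ici] at hx
    rw [(hg x).deriv]
    exact mul_nonneg (le_of_lt hx) (vv_nonneg x)
  refine ⟨fun x => ⟨I0_pos x, vv_nonneg x, vv_le_one x, rr_le_one x⟩, fun x hx => ?_⟩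
  have h2 := har hx
  have h3 := hae hx
  have h4 := hme (mem_Ici.2 le_rfl) (mem_Ici.2 hx) hx
  have h5 := hmg (mem_Ici.2 le_rfl) (mem_Ici.2 hx) hx
  simp only [rr_zero, ell_zero] at h2 h3 h4 h5
  exact ⟨hr0 x hx, by linarith, h4, by linarith, by linarith⟩

end Pool.Agent.Helper82.QZ
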